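import Mathlib
import Pool.Agent.H90.NRSCore

/-!
# MP_44891f_nt: finiteness of non-reduced NRS-matrices of a fixed Hessenberg type

We prove Q1: for every Hessenberg type `Ω`, all but finitely many matrices in `NRS(Ω)` are
`ς`-reduced.
-/

open Matrix Polynomial

namespace Pool.Agent.Results.MP_44891f_nt.Finiteness

/-- The five integers `⟨a₁₁, a₂₁ | a₁₂, a₂₂, a₃₂⟩`. -/
structure HType where
  a11 : ℤ
  a21 : ℤ
  a12 : ℤ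
  a22 : ℤ
  a32 : ℤ

/-- The matrix `H_Ω^v(m,n)`. -/
def hess (Ω : HType) (v : Fin 3 → ℤ) (m n : ℤ) : Matrix (Fin 3) (Fin 3) ℤ :=
  !![Ω.a11, Ω.a12, Ω.a11 * m + Ω.a12 * n + v 0;
     Ω.a21, Ω.a22, Ω.a21 * m + Ω.a22 * n + v 1;
     0,     Ω.a32, Ω.a32 * n + v 2]

/-- `v` is an admissible third column: `det (a_ij) = 1`. -/
def Completes (Ω : HType) (v : Fin 3 → ℤ) : Prop := (hess Ω v 0 0).det = 1

/-- `Ω` is a Hessenberg type. -/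
def IsHessenbergType (Ω : HType) : Prop :=
  1 ≤ Ω.a21 ∧ 1 ≤ Ω.a32 ∧ ∃ v : Fin 3 → ℤ, Completes Ω v

/-- The set `H(Ω)` of matrices of type `Ω` (for all admissible `v`). -/
def ofType (Ω : HType) : Set (Matrix (Fin 3) (Fin 3) ℤ) :=
  {M | ∃ v : Fin 3 → ℤ, Completes Ω v ∧ ∃ m n : ℤ, M = hess Ω v m n}

/-- NRS-matrices: elements of `SL(3, ℤ)` whose characteristic polynomial is irreducible over `ℚ`
and has one real root `r` and a pair of non-real complex conjugate roots `z`, `conj z`. -/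
def IsNRS (A : Matrix (Fin 3) (Fin 3) ℤ) : Prop :=
  A.det = 1 ∧ Irreducible (A.map (Int.castRingHom ℚ)).charpoly ∧
    ∃ (r : ℝ) (z : ℂ), z.im ≠ 0 ∧ (A.map (Int.castRingHom ℂ)).charpoly =
      (X - C (r : ℂ)) * (X - C z) * (X - C ((starRingEnd ℂ) z))

/-- Hessenberg-shaped matrices. -/
def HShaped (M : Matrix (Fin 3) (Fin 3) ℤ) : Prop := M 2 0 = 0 ∧ M 1 0 * M 2 1 ≠ 0

/-- The Hessenberg complexity `ς(M) = |m₂₁² m₃₂|`. -/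
def complexity (M : Matrix (Fin 3) (Fin 3) ℤ) : ℤ := |(M 1 0) ^ 2 * M 2 1|

/-- `M` is `ς`-reduced: it is Hessenberg-shaped and has the least complexity among the
Hessenberg-shaped matrices `g M g⁻¹`, `g ∈ GL(3, ℤ)`. -/
def IsReduced (M : Matrix (Fin 3) (Fin 3) ℤ) : Prop :=
  HShaped M ∧ ∀ (g : GL (Fin 3) ℤ) (M' : Matrix (Fin 3) (Fin 3) ℤ),
    M' = (g : Matrix (Fin 3) (Fin 3) ℤ) * M * ((g⁻¹ : GL (Fin 3) ℤ) : Matrix (Fin 3) (Fin 3) ℤ) →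
    HShaped M' → complexity M ≤ complexity M'

/-! ### Proof -/

/-- General matrix with first two columns given by `Ω`. -/
def mat (Ω : HType) (c1 c2 c3 : ℤ) : Matrix (Fin 3) (Fin 3) ℤ :=
  !![Ω.a11, Ω.a12, c1; Ω.a21, Ω.a22, c2; 0, Ω.a32, c3]

theorem ofType_eq {Ω : HType} {M : Matrix (Fin 3) (Fin 3) ℤ} (h : M ∈ ofType Ω) :
    ∃ c1 c2 c3 : ℤ, M = mat Ω c1 c2 c3 := by
  obtain ⟨v, -, m, n, rfl⟩ := h
  exact ⟨_, _, _, rfl⟩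

/-- The (scaled) left eigenvector functional. -/
def W {K : Type*} [Field K] (Ω : HType) (t : K) (x : Fin 3 → ℤ) : K :=
  (Ω.a21 * Ω.a32 : ℤ) * (x 0 : K) + (Ω.a32 : K) * (t - Ω.a11) * (x 1 : K) +
    ((t - Ω.a22) * (t - Ω.a11) - Ω.a12 * Ω.a21) * (x 2 : K)

/-- trace -/
def ta (Ω : HType) (c3 : ℤ) : ℤ := Ω.a11 + Ω.a22 + c3

/-- second coefficient -/
def tb (Ω : HType) (c2 c3 : ℤ) : ℤ :=
  Ω.a11 * Ω.a22 - Ω.a12 * Ω.a21 + Ω.a11 * c3 + Ω.a22 * c3 - Ω.a32 * c2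

theorem det_mat (Ω : HType) (c1 c2 c3 : ℤ) :
    (mat Ω c1 c2 c3).det = Ω.a11 * (Ω.a22 * c3 - c2 * Ω.a32) - Ω.a12 * (Ω.a21 * c3)
      + c1 * (Ω.a21 * Ω.a32) := by
  rw [Matrix.det_fin_three]
  simp [mat]
  ring

theorem mulVec_mat (Ω : HType) (c1 c2 c3 : ℤ) (x : Fin 3 → ℤ) :
    (mat Ω c1 c2 c3) *ᵥ x = ![Ω.a11 * x 0 + Ω.a12 * x 1 + c1 * x 2,
      Ω.a21 * x 0 + Ω.a22 * x 1 + c2 * x 2, Ω.a32 * x 1 + c3 * x 2] := by
  ext i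
  fin_cases i <;> simp [mat, Matrix.mulVec, dotProduct, Fin.sum_univ_three]

theorem charpoly_eval (Ω : HType) (c1 c2 c3 : ℤ) (t : ℂ) :
    (((mat Ω c1 c2 c3).map (Int.castRingHom ℂ)).charpoly).eval t =
      t ^ 3 - (ta Ω c3 : ℂ) * t ^ 2 + (tb Ω c2 c3 : ℂ) * t - ((mat Ω c1 c2 c3).det : ℂ) := by
  rw [Matrix.eval_charpoly, det_mat, Matrix.det_fin_three]
  simp [mat, ta, tb]
  ring

theorem W_mulVec {K : Type*} [Field K] (Ω : HType) (c1 c2 c3 : ℤ) (t : K)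
    (ht : t ^ 3 - (ta Ω c3 : K) * t ^ 2 + (tb Ω c2 c3 : K) * t - ((mat Ω c1 c2 c3).det : K) = 0)
    (x : Fin 3 → ℤ) : W Ω t ((mat Ω c1 c2 c3) *ᵥ x) = t * W Ω t x := by
  rw [mulVec_mat]
  rw [det_mat] at ht
  simp only [W, ta, tb, Matrix.cons_val_zero, Matrix.cons_val_one, Matrix.cons_val] at ht ⊢
  push_cast at ht ⊢
  linear_combination (-(x 2 : K)) * ht

theorem W_add {K : Type*} [Field K] (Ω : HType) (t : K) (x y : Fin 3 → ℤ) :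
    W Ω t (x + y) = W Ω t x + W Ω t y := by
  simp only [W, Pi.add_apply]
  push_cast
  ring

theorem W_smul {K : Type*} [Field K] (Ω : HType) (t : K) (c : ℤ) (x : Fin 3 → ℤ) :
    W Ω t (c • x) = c * W Ω t x := by
  simp only [W, Pi.smul_apply, smul_eq_mul]
  push_cast
  ring

/-- The determinant `det (x, M x, M² x)`. -/
def F (M : Matrix (Fin 3) (Fin 3) ℤ) (x : Fin 3 → ℤ) : ℤ :=
  (Matrix.of ![x, M *ᵥ x, M *ᵥ (M *ᵥ x)]).det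

theorem F_mul (Ω : HType) (c1 c2 c3 : ℤ) (x : Fin 3 → ℤ) {r : ℂ} {z z' : ℂ}
    (ha : (ta Ω c3 : ℂ) = r + z + z') (hb : (tb Ω c2 c3 : ℂ) = r * z + r * z' + z * z')
    (hd : ((mat Ω c1 c2 c3).det : ℂ) = r * z * z') :
    (F (mat Ω c1 c2 c3) x : ℂ) * (Ω.a21 * Ω.a32 ^ 2) = W Ω r x * W Ω z x * W Ω z' x := by
  have key : (F (mat Ω c1 c2 c3) x) * (Ω.a21 * Ω.a32 ^ 2) =
      (let u : ℤ := Ω.a21 * Ω.a32 * x 0 - Ω.a32 * Ω.a11 * x 1 +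
        (Ω.a11 * Ω.a22 - Ω.a12 * Ω.a21) * x 2
       let v : ℤ := Ω.a32 * x 1 - (Ω.a11 + Ω.a22) * x 2
       let w : ℤ := x 2
       let e1 : ℤ := ta Ω c3
       let e2 : ℤ := tb Ω c2 c3
       let e3 : ℤ := (mat Ω c1 c2 c3).det
       u ^ 3 + u ^ 2 * v * e1 + u ^ 2 * w * (e1 ^ 2 - 2 * e2) + u * v ^ 2 * e2
        + u * v * w * (e1 * e2 - 3 * e3) + u * w ^ 2 * (e2 ^ 2 - 2 * e1 * e3)
        + v ^ 3 * e3 + v ^ 2 * w * (e1 * e3) + v * w ^ 2 * (e2 * e3) + w ^ 3 * e3 ^ 2) := by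
    simp only [F, mulVec_mat, det_mat, ta, tb]
    rw [Matrix.det_fin_three]
    simp only [Matrix.of_apply, Matrix.cons_val_zero, Matrix.cons_val_one, Matrix.cons_val]
    ring
  have key' := congrArg (Int.cast : ℤ → ℂ) key
  generalize (mat Ω c1 c2 c3).det = δ at key' hd
  simp only at key'
  push_cast at key'
  rw [key', ha, hb, hd]
  simp only [W]
  push_cast
  ring

/-- The real root `r` and the non-real root `z` of the characteristic polynomial. -/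
theorem roots {Ω : HType} {c1 c2 c3 : ℤ} (h : IsNRS (mat Ω c1 c2 c3)) :
    ∃ (r : ℝ) (z : ℂ), z.im ≠ 0 ∧ r * ‖z‖ ^ 2 = 1 ∧ (ta Ω c3 : ℝ) = r + 2 * z.re ∧
      (tb Ω c2 c3 : ℝ) = 2 * r * z.re + ‖z‖ ^ 2 := by
  obtain ⟨hdet, -, r, z, hz, hp⟩ := h
  have hev : ∀ t : ℂ, t ^ 3 - (ta Ω c3 : ℂ) * t ^ 2 + (tb Ω c2 c3 : ℂ) * t - 1 =
      (t - r) * (t - z) * (t - (starRingEnd ℂ) z) := by
    intro t
    have h1 := charpoly_eval Ω c1 c2 c3 t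
    rw [hp, hdet] at h1
    simp only [eval_mul, eval_sub, eval_X, eval_C] at h1
    rw [h1]
    norm_num
  have hconj : z * (starRingEnd ℂ) z = ((‖z‖ ^ 2 : ℝ) : ℂ) := by
    rw [Complex.mul_conj, Complex.normSq_eq_norm_sq]
  have hadd : z + (starRingEnd ℂ) z = ((2 * z.re : ℝ) : ℂ) := Complex.add_conj z
  have e0 := hev 0
  have e1 := hev 1
  have e2 := hev (-1)
  have h0 : (r : ℂ) * ((‖z‖ ^ 2 : ℝ) : ℂ) = 1 := by
    rw [← hconj]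
    linear_combination e0
  have ha : (ta Ω c3 : ℂ) = r + ((2 * z.re : ℝ) : ℂ) := by
    rw [← hadd]
    linear_combination (-1 / 2 : ℂ) * e1 - (1 / 2 : ℂ) * e2 + e0
  have hb : (tb Ω c2 c3 : ℂ) = r * ((2 * z.re : ℝ) : ℂ) + ((‖z‖ ^ 2 : ℝ) : ℂ) := by
    rw [← hadd, ← hconj]
    linear_combination (1 / 2 : ℂ) * e1 - (1 / 2 : ℂ) * e2
  refine ⟨r, z, hz, ?_, ?_, ?_⟩
  · exact_mod_cast h0
  · exact_mod_cast ha
  · have : (tb Ω c2 c3 : ℝ) = r * (2 * z.re) + ‖z‖ ^ 2 := by exact_mod_cast hb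
    rw [this]; ring

theorem rows_mul (G : Matrix (Fin 3) (Fin 3) ℤ) (u v w : Fin 3 → ℤ) :
    Matrix.of ![G *ᵥ u, G *ᵥ v, G *ᵥ w] = (Matrix.of ![u, v, w]) * Gᵀ := by
  ext i j
  rw [Matrix.mul_apply]
  fin_cases i <;>
    simp [Matrix.mulVec, dotProduct, Matrix.transpose_apply, mul_comm]

theorem F_conj (M : Matrix (Fin 3) (Fin 3) ℤ) (g : GL (Fin 3) ℤ) (M' : Matrix (Fin 3) (Fin 3) ℤ)
    (hM' : M' = (g : Matrix (Fin 3) (Fin 3) ℤ) * M *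
      ((g⁻¹ : GL (Fin 3) ℤ) : Matrix (Fin 3) (Fin 3) ℤ)) (h20 : M' 2 0 = 0) :
    |F M (((g⁻¹ : GL (Fin 3) ℤ) : Matrix (Fin 3) (Fin 3) ℤ) *ᵥ ![1, 0, 0])| = complexity M' := by
  set G : Matrix (Fin 3) (Fin 3) ℤ := (g : Matrix (Fin 3) (Fin 3) ℤ) with hG
  set G' : Matrix (Fin 3) (Fin 3) ℤ := ((g⁻¹ : GL (Fin 3) ℤ) : Matrix (Fin 3) (Fin 3) ℤ) with hG'
  have hGG' : G' * G = 1 := by
    rw [hG, hG', ← Units.val_mul, inv_mul_cancel, Units.val_one]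
  have hint : M * G' = G' * M' := by
    rw [hM', ← mul_assoc, ← mul_assoc, hGG', one_mul]
  set e : Fin 3 → ℤ := ![1, 0, 0] with he
  have h1 : M *ᵥ (G' *ᵥ e) = G' *ᵥ (M' *ᵥ e) := by
    rw [Matrix.mulVec_mulVec, hint, ← Matrix.mulVec_mulVec]
  have h2 : M *ᵥ (M *ᵥ (G' *ᵥ e)) = G' *ᵥ (M' *ᵥ (M' *ᵥ e)) := by
    rw [h1, Matrix.mulVec_mulVec, hint, ← Matrix.mulVec_mulVec]
  have h3 : Matrix.of ![G' *ᵥ e, M *ᵥ (G' *ᵥ e), M *ᵥ (M *ᵥ (G' *ᵥ e))] =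
      (Matrix.of ![e, M' *ᵥ e, M' *ᵥ (M' *ᵥ e)]) * G'ᵀ := by
    rw [h2, h1]
    exact rows_mul _ _ _ _
  have hdetG : |G'.det| = 1 := by
    have : IsUnit G'.det := (Matrix.isUnit_iff_isUnit_det G').1 (Units.isUnit _)
    exact Int.isUnit_iff_abs_eq.1 this
  rw [F, h3, Matrix.det_mul, abs_mul, Matrix.det_transpose, hdetG, mul_one, complexity]
  congr 1
  rw [Matrix.det_fin_three]
  simp [-Matrix.mulVec_mulVec, he, Matrix.mulVec, dotProduct, Fin.sum_univ_three, h20]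
  ring

theorem W_expand {K : Type*} [Field K] (Ω : HType) (t : K) (x : Fin 3 → ℤ) :
    W Ω t x = ((Ω.a21 * Ω.a32 * x 0 - Ω.a32 * Ω.a11 * x 1 +
        (Ω.a11 * Ω.a22 - Ω.a12 * Ω.a21) * x 2 : ℤ) : K) +
      ((Ω.a32 * x 1 - (Ω.a11 + Ω.a22) * x 2 : ℤ) : K) * t + (x 2 : K) * t ^ 2 := by
  simp only [W]
  push_cast
  ring

theorem W_coords {K : Type*} [Field K] (Ω : HType) {a b : ℤ} (t : K) (ht0 : t ≠ 0)
    (ht : t ^ 3 - (a : K) * t ^ 2 + (b : K) * t - 1 = 0) (x : Fin 3 → ℤ) :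
    W Ω t x = ((Ω.a21 * Ω.a32 * x 0 - Ω.a32 * Ω.a11 * x 1 +
        (Ω.a11 * Ω.a22 - Ω.a12 * Ω.a21) * x 2 - x 2 * b : ℤ) : K) +
      ((Ω.a32 * x 1 - (Ω.a11 + Ω.a22) * x 2 + x 2 * a : ℤ) : K) * t + (x 2 : K) * t⁻¹ := by
  have h2 : t ^ 2 = a * t - b + t⁻¹ := by
    field_simp
    linear_combination ht
  rw [W_expand, h2]
  push_cast
  ring

theorem W_coords' {K : Type*} [Field K] (Ω : HType) {a b : ℤ} (t : K) (ht0 : t ≠ 0)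
    (ht : t ^ 3 - (a : K) * t ^ 2 + (b : K) * t - 1 = 0) (x : Fin 3 → ℤ) :
    W Ω t x = ((Ω.a21 * Ω.a32 * x 0 - Ω.a32 * Ω.a11 * x 1 +
        (Ω.a11 * Ω.a22 - Ω.a12 * Ω.a21) * x 2 - x 2 * b : ℤ) : K) + (x 2 : K) * t⁻¹ +
      ((Ω.a32 * x 1 - (Ω.a11 + Ω.a22) * x 2 + x 2 * a : ℤ) : K) * t⁻¹⁻¹ := by
  rw [W_coords Ω t ht0 ht x, inv_inv]
  ring

theorem W_of_zero {K : Type*} [Field K] {Ω : HType} (h32 : Ω.a32 ≠ 0) {a : ℤ} (t : K)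
    {x : Fin 3 → ℤ} (h2 : x 2 = 0)
    (h1 : Ω.a32 * x 1 - (Ω.a11 + Ω.a22) * x 2 + x 2 * a = 0) :
    W Ω t x = ((Ω.a21 * Ω.a32 : ℤ) : K) * (x 0 : K) := by
  have h1' : x 1 = 0 := by
    rw [h2] at h1
    have : Ω.a32 * x 1 = 0 := by linarith
    rcases mul_eq_zero.1 this with h | h
    · exact absurd h h32
    · exact h
  rw [W_expand, h2, h1']
  push_cast
  ring

theorem norm_lower {Ω : HType} (h21 : 1 ≤ Ω.a21) (h32 : 1 ≤ Ω.a32) {c1 c2 c3 : ℤ}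
    (hdet : (mat Ω c1 c2 c3).det = 1) {r : ℝ} {z : ℂ} (hz : z.im ≠ 0) (hrz : r * ‖z‖ ^ 2 = 1)
    (ha : (ta Ω c3 : ℝ) = r + 2 * z.re) (hb : (tb Ω c2 c3 : ℝ) = 2 * r * z.re + ‖z‖ ^ 2)
    (hT : 10000 * ((Ω.a21 * Ω.a32 : ℤ) : ℝ) ^ 4 ≤ ‖z‖ ∨
      10000 * ((Ω.a21 * Ω.a32 : ℤ) : ℝ) ^ 4 ≤ ‖z‖⁻¹)
    (x : Fin 3 → ℤ) (hx1 : W Ω r x ≠ 0) (hx2 : W Ω z x ≠ 0) :
    ((Ω.a21 * Ω.a32 : ℤ) : ℝ) ^ 3 ≤ |W Ω r x| * ‖W Ω z x‖ ^ 2 := by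
  set D : ℝ := ((Ω.a21 * Ω.a32 : ℤ) : ℝ) with hDdef
  have hD : 1 ≤ D := by
    rw [hDdef]
    have : (1 : ℤ) ≤ Ω.a21 * Ω.a32 := by nlinarith
    exact_mod_cast this
  have h32' : Ω.a32 ≠ 0 := by omega
  have hz0 : z ≠ 0 := by
    rintro rfl
    simp at hz
  have hr0 : r ≠ 0 := by
    rintro rfl
    simp at hrz
  have hconj : z * (starRingEnd ℂ) z = ((‖z‖ ^ 2 : ℝ) : ℂ) := by
    rw [Complex.mul_conj, Complex.normSq_eq_norm_sq]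
  have hadd : z + (starRingEnd ℂ) z = ((2 * z.re : ℝ) : ℂ) := Complex.add_conj z
  have hquad : z ^ 2 - ((2 * z.re : ℝ) : ℂ) * z + ((‖z‖ ^ 2 : ℝ) : ℂ) = 0 := by
    rw [← hadd, ← hconj]
    ring
  have hrz' : (r : ℂ) * ((‖z‖ ^ 2 : ℝ) : ℂ) = 1 := by exact_mod_cast hrz
  have ha' : (ta Ω c3 : ℂ) = r + ((2 * z.re : ℝ) : ℂ) := by exact_mod_cast ha
  have hb' : (tb Ω c2 c3 : ℂ) = r * ((2 * z.re : ℝ) : ℂ) + ((‖z‖ ^ 2 : ℝ) : ℂ) := by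
    have : (tb Ω c2 c3 : ℝ) = r * (2 * z.re) + ‖z‖ ^ 2 := by rw [hb]; ring
    exact_mod_cast this
  -- root equations
  have hr3 : r ^ 3 - (ta Ω c3 : ℝ) * r ^ 2 + (tb Ω c2 c3 : ℝ) * r - 1 = 0 := by
    rw [ha, hb]
    linear_combination hrz
  have hz3 : z ^ 3 - (ta Ω c3 : ℂ) * z ^ 2 + (tb Ω c2 c3 : ℂ) * z - 1 = 0 := by
    rw [ha', hb']
    linear_combination (z - r) * hquad + hrz'
  have hr3' : r ^ 3 - (ta Ω c3 : ℝ) * r ^ 2 + (tb Ω c2 c3 : ℝ) * r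
      - ((mat Ω c1 c2 c3).det : ℝ) = 0 := by rw [hdet]; exact_mod_cast hr3
  have hz3' : z ^ 3 - (ta Ω c3 : ℂ) * z ^ 2 + (tb Ω c2 c3 : ℂ) * z
      - ((mat Ω c1 c2 c3).det : ℂ) = 0 := by rw [hdet]; exact_mod_cast hz3
  set M := mat Ω c1 c2 c3 with hM
  have hm1 : ∀ x, W Ω r (M *ᵥ x) = r * W Ω r x := W_mulVec Ω c1 c2 c3 r hr3'
  have hm2 : ∀ x, W Ω z (M *ᵥ x) = z * W Ω z x := W_mulVec Ω c1 c2 c3 z hz3'
  have hinv : ∀ x : Fin 3 → ℤ, M *ᵥ (M.adjugate *ᵥ x) = x := by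
    intro x
    rw [Matrix.mulVec_mulVec, Matrix.mul_adjugate, hdet, one_smul, Matrix.one_mulVec]
  have hi1 : ∀ x, W Ω r (M.adjugate *ᵥ x) = r⁻¹ * W Ω r x := by
    intro x
    have := hm1 (M.adjugate *ᵥ x)
    rw [hinv] at this
    rw [this]
    field_simp
  have hi2 : ∀ x, W Ω z (M.adjugate *ᵥ x) = z⁻¹ * W Ω z x := by
    intro x
    have := hm2 (M.adjugate *ᵥ x)
    rw [hinv] at this
    rw [this]
    field_simp
  have hDc : ((Ω.a21 * Ω.a32 : ℤ) : ℂ) = (D : ℂ) := by rw [hDdef]; norm_cast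
  rcases hT with hT | hT
  · refine Pool.Agent.H90.NRSCore.core hD hrz hz ha hb hT (W Ω r) (W Ω z)
      (fun x => M *ᵥ x) (fun x => M.adjugate *ᵥ x) (fun c x => M *ᵥ x + c • x)
      hm1 hm2 hi1 hi2 ?_ ?_ ?_ x hx1 hx2
    · intro c x
      rw [W_add, W_smul, hm1]
      ring
    · intro c x
      rw [W_add, W_smul, hm2]
      ring
    · intro x
      refine ⟨_, _, _, W_coords Ω r hr0 hr3 x, W_coords Ω z hz0 hz3 x, ?_⟩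
      intro hq hs
      refine ⟨x 0, ?_, ?_⟩
      · exact W_of_zero h32' r hs hq
      · rw [W_of_zero h32' z hs hq, hDc]
  · have hnz : ‖z‖ ≠ 0 := norm_ne_zero_iff.2 hz0
    have hrinv : r⁻¹ = ‖z‖ ^ 2 := by
      rw [inv_eq_iff_eq_inv]
      exact eq_inv_of_mul_eq_one_left hrz
    have hzinv : z⁻¹ = (r : ℂ) * (starRingEnd ℂ) z := by
      rw [Complex.inv_def, mul_comm]
      congr 1
      rw [Complex.normSq_eq_norm_sq]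
      rw [← eq_inv_of_mul_eq_one_left hrz]
    have hre : (z⁻¹).re = r * z.re := by
      rw [hzinv]
      simp
    have him : (z⁻¹).im = -(r * z.im) := by
      rw [hzinv]
      simp
    have h1 : r⁻¹ * ‖z⁻¹‖ ^ 2 = 1 := by
      rw [hrinv, norm_inv]
      field_simp
    refine Pool.Agent.H90.NRSCore.core (a := tb Ω c2 c3) (b := ta Ω c3) hD h1 ?_ ?_ ?_ ?_
      (W Ω r) (W Ω z)
      (fun x => M.adjugate *ᵥ x) (fun x => M *ᵥ x) (fun c x => M.adjugate *ᵥ x + c • x)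
      hi1 hi2 ?_ ?_ ?_ ?_ ?_ x hx1 hx2
    · rw [him]
      exact neg_ne_zero.2 (mul_ne_zero hr0 hz)
    · rw [hre, hb, hrinv]
      ring
    · rw [hre, ha, norm_inv, inv_pow, ← hrinv, inv_inv]
      field_simp
      ring
    · rw [norm_inv]
      exact hT
    · intro x
      rw [inv_inv]
      exact hm1 x
    · intro x
      rw [inv_inv]
      exact hm2 x
    · intro c x
      rw [W_add, W_smul, hi1]
      ring
    · intro c x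
      rw [W_add, W_smul, hi2]
      ring
    · intro x
      refine ⟨_, _, _, W_coords' Ω r hr0 hr3 x, W_coords' Ω z hz0 hz3 x, ?_⟩
      intro hq hs
      refine ⟨x 0, ?_, ?_⟩
      · exact W_of_zero h32' r hq hs
      · rw [W_of_zero h32' z hq hs, hDc]

theorem reduced_of_large {Ω : HType} (h21 : 1 ≤ Ω.a21) (h32 : 1 ≤ Ω.a32) {c1 c2 c3 : ℤ}
    (hdet : (mat Ω c1 c2 c3).det = 1) {r : ℝ} {z : ℂ} (hz : z.im ≠ 0) (hrz : r * ‖z‖ ^ 2 = 1)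
    (ha : (ta Ω c3 : ℝ) = r + 2 * z.re) (hb : (tb Ω c2 c3 : ℝ) = 2 * r * z.re + ‖z‖ ^ 2)
    (hT : 10000 * ((Ω.a21 * Ω.a32 : ℤ) : ℝ) ^ 4 ≤ ‖z‖ ∨
      10000 * ((Ω.a21 * Ω.a32 : ℤ) : ℝ) ^ 4 ≤ ‖z‖⁻¹) : IsReduced (mat Ω c1 c2 c3) := by
  have e10 : (mat Ω c1 c2 c3) 1 0 = Ω.a21 := rfl
  have e21 : (mat Ω c1 c2 c3) 2 1 = Ω.a32 := rfl
  have e20 : (mat Ω c1 c2 c3) 2 0 = 0 := rfl
  have hpos : 0 < Ω.a21 * Ω.a32 := by positivity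
  refine ⟨⟨e20, by rw [e10, e21]; exact hpos.ne'⟩, ?_⟩
  intro g M' hM' hshape
  have hF := F_conj (mat Ω c1 c2 c3) g M' hM' hshape.1
  set x : Fin 3 → ℤ := ((g⁻¹ : GL (Fin 3) ℤ) : Matrix (Fin 3) (Fin 3) ℤ) *ᵥ ![1, 0, 0] with hx
  have hF0 : F (mat Ω c1 c2 c3) x ≠ 0 := by
    intro h0
    rw [h0, abs_zero] at hF
    have h1 : (M' 1 0) ^ 2 * M' 2 1 = 0 := abs_eq_zero.1 hF.symm
    apply hshape.2
    rcases mul_eq_zero.1 h1 with h | h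
    · rw [pow_eq_zero_iff (by norm_num)] at h
      rw [h, zero_mul]
    · rw [h, mul_zero]
  have hconj : z * (starRingEnd ℂ) z = ((‖z‖ ^ 2 : ℝ) : ℂ) := by
    rw [Complex.mul_conj, Complex.normSq_eq_norm_sq]
  have hadd : z + (starRingEnd ℂ) z = ((2 * z.re : ℝ) : ℂ) := Complex.add_conj z
  have hrz' : (r : ℂ) * ((‖z‖ ^ 2 : ℝ) : ℂ) = 1 := by exact_mod_cast hrz
  have ha' : (ta Ω c3 : ℂ) = r + z + (starRingEnd ℂ) z := by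
    rw [add_assoc, hadd]; exact_mod_cast ha
  have hb' : (tb Ω c2 c3 : ℂ) = r * z + r * (starRingEnd ℂ) z + z * (starRingEnd ℂ) z := by
    rw [← mul_add, hadd, hconj]
    have : (tb Ω c2 c3 : ℝ) = r * (2 * z.re) + ‖z‖ ^ 2 := by rw [hb]; ring
    exact_mod_cast this
  have hd' : ((mat Ω c1 c2 c3).det : ℂ) = r * z * (starRingEnd ℂ) z := by
    rw [hdet, mul_assoc, hconj, hrz']
    norm_num
  have hmul := F_mul Ω c1 c2 c3 x ha' hb' hd'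
  have hWr : W Ω (r : ℂ) x = ((W Ω r x : ℝ) : ℂ) := by
    simp only [W]
    push_cast
    ring
  have hWc : W Ω ((starRingEnd ℂ) z) x = (starRingEnd ℂ) (W Ω z x) := by
    simp only [W]
    simp
  have hWz : W Ω z x * W Ω ((starRingEnd ℂ) z) x = ((‖W Ω z x‖ ^ 2 : ℝ) : ℂ) := by
    rw [hWc, Complex.mul_conj, Complex.normSq_eq_norm_sq]
  have hreal : (F (mat Ω c1 c2 c3) x : ℝ) * (Ω.a21 * Ω.a32 ^ 2) = W Ω r x * ‖W Ω z x‖ ^ 2 := by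
    rw [mul_assoc, hWz, hWr] at hmul
    exact_mod_cast hmul
  have h21' : (1 : ℝ) ≤ Ω.a21 := by exact_mod_cast h21
  have h32' : (1 : ℝ) ≤ Ω.a32 := by exact_mod_cast h32
  have hne : W Ω r x * ‖W Ω z x‖ ^ 2 ≠ 0 := by
    rw [← hreal]
    have : (F (mat Ω c1 c2 c3) x : ℝ) ≠ 0 := by exact_mod_cast hF0
    positivity
  have hx1 : W Ω r x ≠ 0 := left_ne_zero_of_mul hne
  have hx2 : W Ω z x ≠ 0 := by
    intro h
    apply hne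
    rw [h]
    simp
  have hlow := norm_lower h21 h32 hdet hz hrz ha hb hT x hx1 hx2
  have habs : |(F (mat Ω c1 c2 c3) x : ℝ)| * (Ω.a21 * Ω.a32 ^ 2) = |W Ω r x| * ‖W Ω z x‖ ^ 2 := by
    have h1 : |(F (mat Ω c1 c2 c3) x : ℝ) * (Ω.a21 * Ω.a32 ^ 2)| =
        |W Ω r x * ‖W Ω z x‖ ^ 2| := by rw [hreal]
    rw [abs_mul (F (mat Ω c1 c2 c3) x : ℝ) _, abs_mul (W Ω r x) _,
      abs_of_nonneg (show (0 : ℝ) ≤ Ω.a21 * Ω.a32 ^ 2 by positivity),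
      abs_of_nonneg (show (0 : ℝ) ≤ ‖W Ω z x‖ ^ 2 by positivity)] at h1
    exact h1
  rw [← habs] at hlow
  push_cast at hlow
  have hfin : ((Ω.a21 : ℝ) ^ 2 * Ω.a32) ≤ |(F (mat Ω c1 c2 c3) x : ℝ)| := by
    have hp : (0 : ℝ) < Ω.a21 * Ω.a32 ^ 2 := by positivity
    apply le_of_mul_le_mul_right _ hp
    calc (Ω.a21 : ℝ) ^ 2 * Ω.a32 * (Ω.a21 * Ω.a32 ^ 2) = ((Ω.a21 : ℝ) * Ω.a32) ^ 3 := by ring
      _ ≤ _ := hlow
  rw [← hF, complexity, e10, e21, abs_of_nonneg (by positivity)]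
  exact_mod_cast hfin

theorem bounds {Ω : HType} {c2 c3 : ℤ} {r : ℝ} {z : ℂ} (hz : z.im ≠ 0) (hrz : r * ‖z‖ ^ 2 = 1)
    (ha : (ta Ω c3 : ℝ) = r + 2 * z.re) (hb : (tb Ω c2 c3 : ℝ) = 2 * r * z.re + ‖z‖ ^ 2)
    {T : ℤ} (h1 : ‖z‖ < T) (h2 : ‖z‖⁻¹ < T) :
    |ta Ω c3| ≤ T ^ 2 + 2 * T ∧ |tb Ω c2 c3| ≤ T ^ 2 + 2 * T := by
  have hz0 : z ≠ 0 := by
    rintro rfl
    simp at hz
  have hn : 0 < ‖z‖ := norm_pos_iff.2 hz0
  have hT0 : (0 : ℝ) < T := hn.trans h1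
  have hr : r = (‖z‖⁻¹) ^ 2 := by
    rw [inv_pow]
    exact eq_inv_of_mul_eq_one_left hrz
  have hr0 : 0 < r := by rw [hr]; positivity
  have hrT : r ≤ (T : ℝ) ^ 2 := by
    rw [hr]
    exact pow_le_pow_left₀ (by positivity) h2.le 2
  have hzT : ‖z‖ ^ 2 ≤ (T : ℝ) ^ 2 := pow_le_pow_left₀ hn.le h1.le 2
  have hre : |z.re| ≤ ‖z‖ := Complex.abs_re_le_norm z
  have hrz1 : r * ‖z‖ ≤ T := by
    have : r * ‖z‖ = ‖z‖⁻¹ := by rw [hr]; field_simp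
    rw [this]; exact h2.le
  constructor
  · have : |(ta Ω c3 : ℝ)| ≤ (T : ℝ) ^ 2 + 2 * T := by
      rw [ha]
      calc |r + 2 * z.re| ≤ |r| + |2 * z.re| := abs_add_le _ _
        _ ≤ (T : ℝ) ^ 2 + 2 * T := by
          rw [abs_of_pos hr0, abs_mul, abs_of_pos (by norm_num : (0 : ℝ) < 2)]
          linarith
    exact_mod_cast this
  · have : |(tb Ω c2 c3 : ℝ)| ≤ (T : ℝ) ^ 2 + 2 * T := by
      rw [hb]
      calc |2 * r * z.re + ‖z‖ ^ 2| ≤ |2 * r * z.re| + |‖z‖ ^ 2| := abs_add_le _ _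
        _ ≤ (T : ℝ) ^ 2 + 2 * T := by
          rw [abs_mul, abs_of_pos (by positivity : (0 : ℝ) < 2 * r),
            abs_of_nonneg (by positivity : 0 ≤ ‖z‖ ^ 2)]
          have : r * |z.re| ≤ r * ‖z‖ := mul_le_mul_of_nonneg_left hre hr0.le
          linarith
    exact_mod_cast this

/-- **Q1 of MP_44891f_nt.** For every Hessenberg type `Ω`, all but finitely many matrices in
`NRS(Ω)` are `ς`-reduced. -/
theorem result (Ω : HType) (hΩ : IsHessenbergType Ω) :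
    {M : Matrix (Fin 3) (Fin 3) ℤ | M ∈ ofType Ω ∧ IsNRS M ∧ ¬ IsReduced M}.Finite := by
  obtain ⟨h21, h32, -⟩ := hΩ
  set S := {M : Matrix (Fin 3) (Fin 3) ℤ | M ∈ ofType Ω ∧ IsNRS M ∧ ¬ IsReduced M} with hS
  set T : ℤ := 10000 * (Ω.a21 * Ω.a32) ^ 4 with hT
  set K : ℤ := T ^ 2 + 2 * T with hK
  set K3 : ℤ := K + |Ω.a11 + Ω.a22| with hK3
  set K2 : ℤ := |Ω.a11 * Ω.a22 - Ω.a12 * Ω.a21| + |Ω.a11 + Ω.a22| * K3 + K with hK2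
  have hfinite : (Set.Icc (-K3) K3 ×ˢ Set.Icc (-K2) K2).Finite :=
    (Set.finite_Icc _ _).prod (Set.finite_Icc _ _)
  have hmaps : Set.MapsTo (fun M : Matrix (Fin 3) (Fin 3) ℤ => (M 2 2, M 1 2)) S
      (Set.Icc (-K3) K3 ×ˢ Set.Icc (-K2) K2) := by
    rintro M ⟨hM, hNRS, hred⟩
    obtain ⟨c1, c2, c3, rfl⟩ := ofType_eq hM
    obtain ⟨r, z, hz, hrz, ha, hb⟩ := roots hNRS
    have hlt : ‖z‖ < (T : ℝ) ∧ ‖z‖⁻¹ < (T : ℝ) := by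
      by_contra hcon
      apply hred
      apply reduced_of_large h21 h32 hNRS.1 hz hrz ha hb
      rw [not_and_or, not_lt, not_lt] at hcon
      rw [hT] at hcon
      push_cast at hcon ⊢
      exact hcon
    obtain ⟨hta, htb⟩ := bounds hz hrz ha hb hlt.1 hlt.2
    have hc3 : |c3| ≤ K3 := by
      have : c3 = ta Ω c3 - (Ω.a11 + Ω.a22) := by simp only [ta]; ring
      rw [this]
      calc |ta Ω c3 - (Ω.a11 + Ω.a22)| ≤ |ta Ω c3| + |Ω.a11 + Ω.a22| := abs_sub _ _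
        _ ≤ _ := by linarith
    have hc2 : |c2| ≤ K2 := by
      have h1 : Ω.a32 * c2 = (Ω.a11 * Ω.a22 - Ω.a12 * Ω.a21) + (Ω.a11 + Ω.a22) * c3
          - tb Ω c2 c3 := by simp only [tb]; ring
      have h2 : |c2| ≤ |Ω.a32 * c2| := by
        rw [abs_mul, abs_of_pos (by omega : 0 < Ω.a32)]
        nlinarith [abs_nonneg c2]
      rw [h1] at h2
      have h3 : |(Ω.a11 * Ω.a22 - Ω.a12 * Ω.a21) + (Ω.a11 + Ω.a22) * c3 - tb Ω c2 c3| ≤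
          |Ω.a11 * Ω.a22 - Ω.a12 * Ω.a21| + |Ω.a11 + Ω.a22| * |c3| + |tb Ω c2 c3| := by
        have h5 := abs_add_le (Ω.a11 * Ω.a22 - Ω.a12 * Ω.a21) ((Ω.a11 + Ω.a22) * c3)
        rw [← abs_mul]
        exact (abs_sub _ _).trans (by linarith)
      have h4 : |Ω.a11 + Ω.a22| * |c3| ≤ |Ω.a11 + Ω.a22| * K3 :=
        mul_le_mul_of_nonneg_left hc3 (abs_nonneg _)
      linarith
    refine ⟨?_, ?_⟩
    · exact abs_le.1 hc3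
    · exact abs_le.1 hc2
  have hinj : Set.InjOn (fun M : Matrix (Fin 3) (Fin 3) ℤ => (M 2 2, M 1 2)) S := by
    rintro M ⟨hM, hNRS, -⟩ N ⟨hN, hNRS', -⟩ heq
    obtain ⟨c1, c2, c3, rfl⟩ := ofType_eq hM
    obtain ⟨d1, d2, d3, rfl⟩ := ofType_eq hN
    have h3 : c3 = d3 := congrArg Prod.fst heq
    have h2 : c2 = d2 := congrArg Prod.snd heq
    subst h3 h2
    have e1 := hNRS.1
    have e2 := hNRS'.1
    rw [det_mat] at e1 e2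
    have h1 : c1 * (Ω.a21 * Ω.a32) = d1 * (Ω.a21 * Ω.a32) := by linarith
    have hne : Ω.a21 * Ω.a32 ≠ 0 := by positivity
    have := mul_right_cancel₀ hne h1
    rw [this]
  exact Set.Finite.of_injOn hmaps hinj hfinite

end Pool.Agent.Results.MP_44891f_nt.Finiteness
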